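import Mathlib

/-!
# Joint eigenvalues of two commuting endomorphisms (self-contained)
-/

open Polynomial
open scoped IsMulCommutative

namespace Pool.Agent.Lib.MP_361a6f_ag.IP2

/-- a proper ideal of `ℚ[x, y]` containing `c(r)`, `c` the minimal polynomial of `γ`, has a complex
zero at which `r` takes the value `γ` -/
theorem exists_point (I : Ideal (MvPolynomial (Fin 2) ℚ)) (hI : I ≠ ⊤)
    (r : MvPolynomial (Fin 2) ℚ) (γ : ℂ) (hr : aeval r (minpoly ℚ γ) ∈ I)
    (hγ : IsIntegral ℚ γ) :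
    ∃ χ : MvPolynomial (Fin 2) ℚ →ₐ[ℚ] ℂ, (∀ a ∈ I, χ a = 0) ∧ χ r = γ := by
  obtain ⟨M, hM, hIM⟩ := Ideal.exists_le_maximal I hI
  let _ : Field (MvPolynomial (Fin 2) ℚ ⧸ M) := Ideal.Quotient.field M
  have _ : Module.Finite ℚ (MvPolynomial (Fin 2) ℚ ⧸ M) :=
    finite_of_finite_type_of_isJacobsonRing ℚ (MvPolynomial (Fin 2) ℚ ⧸ M)
  have hmin : minpoly ℚ (Ideal.Quotient.mkₐ ℚ M r) = minpoly ℚ γ := by
    symm
    refine minpoly.eq_of_irreducible_of_monic (minpoly.irreducible hγ) ?_ (minpoly.monic hγ)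
    rw [aeval_algHom_apply]
    exact Ideal.Quotient.eq_zero_iff_mem.mpr (hIM hr)
  have h1 := Algebra.IsAlgebraic.range_eval_eq_rootSet_minpoly ℂ (K := MvPolynomial (Fin 2) ℚ ⧸ M)
    (F := ℚ) (Ideal.Quotient.mkₐ ℚ M r)
  have h2 : γ ∈ (minpoly ℚ (Ideal.Quotient.mkₐ ℚ M r)).rootSet ℂ := by
    rw [hmin, mem_rootSet]
    exact ⟨minpoly.ne_zero hγ, minpoly.aeval ℚ γ⟩
  rw [← h1] at h2
  obtain ⟨ψ, hψ⟩ := h2
  refine ⟨ψ.comp (Ideal.Quotient.mkₐ ℚ M), fun a ha => ?_, hψ⟩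
  rw [AlgHom.comp_apply]
  have : Ideal.Quotient.mkₐ ℚ M a = 0 := Ideal.Quotient.eq_zero_iff_mem.mpr (hIM ha)
  rw [this, map_zero]

section

variable {V : Type*} [AddCommGroup V] [Module ℚ V]

theorem exists_rep (f g : Module.End ℚ V)
    (hc : Commute f g) : ∃ φ : MvPolynomial (Fin 2) ℚ →ₐ[ℚ] Module.End ℚ V,
      φ (MvPolynomial.X 0) = f ∧ φ (MvPolynomial.X 1) = g := by
  have hcomm : ∀ a ∈ ({f, g} : Set (Module.End ℚ V)), ∀ b ∈ ({f, g} : Set (Module.End ℚ V)),
      a * b = b * a := by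
    rintro a (rfl | rfl) b (rfl | rfl)
    · rfl
    · exact hc
    · exact hc.symm
    · rfl
  have _ : IsMulCommutative (Algebra.adjoin ℚ ({f, g} : Set (Module.End ℚ V))) :=
    Algebra.isMulCommutative_adjoin ℚ hcomm
  refine ⟨(Algebra.adjoin ℚ ({f, g} : Set (Module.End ℚ V))).val.comp
    (MvPolynomial.aeval (![⟨f, Algebra.subset_adjoin (by simp)⟩,
      ⟨g, Algebra.subset_adjoin (by simp)⟩] :
      Fin 2 → Algebra.adjoin ℚ ({f, g} : Set (Module.End ℚ V)))), ?_, ?_⟩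
  · simp
  · simp

/-- the annihilator of a vector -/
def annV (φ : MvPolynomial (Fin 2) ℚ →ₐ[ℚ] Module.End ℚ V) (v : V) :
    Ideal (MvPolynomial (Fin 2) ℚ) where
  carrier := {r | φ r v = 0}
  add_mem' := by
    intro a b ha hb
    change φ (a + b) v = 0
    change φ a v = 0 at ha
    change φ b v = 0 at hb
    rw [map_add, LinearMap.add_apply, ha, hb, add_zero]
  zero_mem' := by
    change φ 0 v = 0
    rw [map_zero]; rfl
  smul_mem' := by
    intro c a ha
    change φ (c * a) v = 0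
    change φ a v = 0 at ha
    rw [map_mul, Module.End.mul_apply, ha, map_zero]

theorem annV_ne_top (φ : MvPolynomial (Fin 2) ℚ →ₐ[ℚ] Module.End ℚ V) {v : V} (hv : v ≠ 0) :
    annV φ v ≠ ⊤ := by
  intro h
  have h1 : (1 : MvPolynomial (Fin 2) ℚ) ∈ annV φ v := by rw [h]; trivial
  change φ 1 v = 0 at h1
  rw [map_one] at h1
  exact hv h1

end

/-- Joint eigenvalues: if commuting endomorphisms `f`, `g` of a rational vector space satisfy
`A(f) v = 0`, `B(g) v = 0`, `P(f g) v = 0` for a vector `v ≠ 0`, then there are complex roots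
`α` of `A`, `β` of `B` such that `α β` is a root of `P`. -/
theorem joint2 {V : Type*} [AddCommGroup V] [Module ℚ V] (f g : Module.End ℚ V)
    (hc : Commute f g) (A B P : ℚ[X]) (v : V) (hv : v ≠ 0)
    (hA : aeval f A v = 0) (hB : aeval g B v = 0) (hP : aeval (f * g) P v = 0) :
    ∃ α β : ℂ, aeval α A = 0 ∧ aeval β B = 0 ∧ aeval (α * β) P = 0 := by
  obtain ⟨φ, hf, hg⟩ := exists_rep f g hc
  obtain ⟨χ, hχ, -⟩ := exists_point (annV φ v) (annV_ne_top φ hv) 0 0
    (by rw [minpoly.zero, aeval_X]; exact zero_mem _) isIntegral_zero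
  refine ⟨χ (MvPolynomial.X 0), χ (MvPolynomial.X 1), ?_, ?_, ?_⟩
  · rw [aeval_algHom_apply]
    refine hχ _ ?_
    change φ (aeval (MvPolynomial.X 0) A) v = 0
    rw [← aeval_algHom_apply, hf]
    exact hA
  · rw [aeval_algHom_apply]
    refine hχ _ ?_
    change φ (aeval (MvPolynomial.X 1) B) v = 0
    rw [← aeval_algHom_apply, hg]
    exact hB
  · rw [← map_mul, aeval_algHom_apply]
    refine hχ _ ?_
    change φ (aeval (MvPolynomial.X 0 * MvPolynomial.X 1) P) v = 0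
    rw [← aeval_algHom_apply, map_mul, hf, hg]
    exact hP

/-- The product of commuting endomorphisms killed by `A`, `B` is killed by a nonzero polynomial
whose complex roots are products of roots of `A` and `B`. -/
theorem joint_poly {V : Type*} [AddCommGroup V] [Module ℚ V] (f g : Module.End ℚ V)
    (hc : Commute f g) (A B : ℚ[X]) (hA0 : A ≠ 0) (hB0 : B ≠ 0)
    (hA : aeval f A = 0) (hB : aeval g B = 0) :
    ∃ C : ℚ[X], C ≠ 0 ∧ aeval (f * g) C = 0 ∧
      ∀ γ : ℂ, aeval γ C = 0 → ∃ α β : ℂ, aeval α A = 0 ∧ aeval β B = 0 ∧ γ = α * β := by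
  obtain ⟨φ, hf, hg⟩ := exists_rep f g hc
  -- integrality of the product
  have hint : IsIntegral ℚ (f * g) := by
    have h1 : IsIntegral ℚ (Ideal.Quotient.mkₐ ℚ (RingHom.ker φ) (MvPolynomial.X 0)) := by
      rw [← isAlgebraic_iff_isIntegral]
      refine ⟨A, hA0, ?_⟩
      rw [aeval_algHom_apply]
      refine Ideal.Quotient.eq_zero_iff_mem.mpr ?_
      rw [RingHom.mem_ker, ← aeval_algHom_apply, hf, hA]
    have h2 : IsIntegral ℚ (Ideal.Quotient.mkₐ ℚ (RingHom.ker φ) (MvPolynomial.X 1)) := by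
      rw [← isAlgebraic_iff_isIntegral]
      refine ⟨B, hB0, ?_⟩
      rw [aeval_algHom_apply]
      refine Ideal.Quotient.eq_zero_iff_mem.mpr ?_
      rw [RingHom.mem_ker, ← aeval_algHom_apply, hg, hB]
    have h3 := (h1.mul h2).map (Ideal.Quotient.liftₐ (RingHom.ker φ) φ (fun a ha => ha))
    rw [← map_mul] at h3
    have e : (Ideal.Quotient.liftₐ (RingHom.ker φ) φ (fun a ha => ha))
        (Ideal.Quotient.mkₐ ℚ (RingHom.ker φ) (MvPolynomial.X 0 * MvPolynomial.X 1)) = f * g := by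
      rw [← hf, ← hg, ← map_mul]
      rfl
    rw [e] at h3
    exact h3
  refine ⟨minpoly ℚ (f * g), minpoly.ne_zero hint, minpoly.aeval _ _, fun γ hγ => ?_⟩
  have hγi : IsIntegral ℚ γ := ⟨minpoly ℚ (f * g), minpoly.monic hint, hγ⟩
  obtain ⟨d, hd⟩ := minpoly.dvd ℚ γ hγ
  have hd0 : d ≠ 0 := by
    rintro rfl
    rw [mul_zero] at hd
    exact minpoly.ne_zero hint hd
  have hne : aeval (f * g) d ≠ 0 := by
    intro h
    have h1 := natDegree_le_of_dvd (minpoly.dvd ℚ (f * g) h) hd0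
    rw [hd, natDegree_mul (minpoly.ne_zero hγi) hd0] at h1
    have h2 := minpoly.natDegree_pos hγi
    omega
  obtain ⟨v, hv⟩ : ∃ v, aeval (f * g) d v ≠ 0 := by
    by_contra hcon
    push Not at hcon
    exact hne (LinearMap.ext hcon)
  obtain ⟨χ, hχ, hχγ⟩ := exists_point (annV φ (aeval (f * g) d v)) (annV_ne_top φ hv)
    (MvPolynomial.X 0 * MvPolynomial.X 1) γ (by
      change φ (aeval (MvPolynomial.X 0 * MvPolynomial.X 1) (minpoly ℚ γ)) _ = 0
      rw [← aeval_algHom_apply, map_mul, hf, hg, ← Module.End.mul_apply, ← map_mul, ← hd,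
        minpoly.aeval]
      rfl) hγi
  refine ⟨χ (MvPolynomial.X 0), χ (MvPolynomial.X 1), ?_, ?_, ?_⟩
  · rw [aeval_algHom_apply]
    refine hχ _ ?_
    change φ (aeval (MvPolynomial.X 0) A) _ = 0
    rw [← aeval_algHom_apply, hf, hA]
    rfl
  · rw [aeval_algHom_apply]
    refine hχ _ ?_
    change φ (aeval (MvPolynomial.X 1) B) _ = 0
    rw [← aeval_algHom_apply, hg, hB]
    rfl
  · rw [← map_mul, hχγ]

end Pool.Agent.Lib.MP_361a6f_ag.IP2
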