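import Pool.Agent.Lib.MP_361a6f_ag.H3.Dec2
import Pool.Agent.Lib.MP_361a6f_ag.H3.Powers

/-!
# Decomposition of the cohomology of a product (strings and a complement in all degrees)
-/

open CategoryTheory AlgebraicGeometry MonoidalCategory CartesianMonoidalCategory Opposite

universe u v w

set_option linter.unusedSectionVars false

namespace Pool.Agent.Lib.MP_361a6f_ag.IP2

open Pool.Agent.Lib.MP_361a6f_ag.H3

variable {k : Type u} [Field k] {K : Type v} [Field K] [CharZero K]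
  {W : CohomologyData.{u, v, w} k K} {𝒱 : VarietyClass k}

/-- Decomposition of the cohomology of `X` (of dimension `n`, with class `ξ`) in strings
`p, ξ p, ξ² p, …` of algebraic classes and a subspace `T` of `H^n(X)` killed by `ξ`. -/
structure StringsG (W : CohomologyData.{u, v, w} k K) (X : Sch k)
    (n : ℕ) (ξ : W.coh X) (ι : Type) [Fintype ι] where
  j : ι → ℕ
  p : ι → W.coh X
  D : ι → ℚ
  T : Submodule K (W.coh X)
  hj : ∀ s, 2 * j s ≤ n
  p_alg : ∀ s, p s ∈ W.alg X (j s)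
  D_pos : ∀ s, 0 < D s
  norm : ∀ s, W.tr X (ξ ^ (n - 2 * j s) * (p s * p s)) = (-1) ^ (j s) * (D s : K)
  prim : ∀ s, ξ ^ (n - 2 * j s + 1) * p s = 0
  orth : ∀ s s', s ≠ s' → ∀ b, W.tr X (ξ ^ b * (p s * p s')) = 0
  T_st : ∀ t ∈ T, ξ * t ∈ T
  T_orth : ∀ t ∈ T, ∀ s b, W.tr X (ξ ^ b * (t * p s)) = 0
  decomp : (Submodule.span K {x | ∃ s b, x = ξ ^ b * p s}) ⊔ T = ⊤

namespace StringsG

variable (hW : IsWeilCohomology W 𝒱) {Y X : Sch k} {d n : ℕ}
  (hY : 𝒱.mem Y d) (hX : 𝒱.mem X n) {ξ : W.coh X} (hξ : ξ ∈ W.alg X 1)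
  {ι : Type} [Fintype ι] (σ : StringsG W X n ξ ι)

/-- length of the string -/
def len (s : ι) : ℕ := n - 2 * σ.j s

theorem high_zero (s : ι) (b : ℕ) (hb : σ.len s < b) : ξ ^ b * σ.p s = 0 := by
  obtain ⟨c, rfl⟩ : ∃ c, b = c + (n - 2 * σ.j s + 1) := ⟨b - (n - 2 * σ.j s + 1), by
    simp only [len] at hb; omega⟩
  rw [pow_add, mul_assoc, σ.prim, mul_zero]

include hW hX hξ in
theorem norm_other (s : ι) (b : ℕ) (hb : b ≠ σ.len s) :
    W.tr X (ξ ^ b * (σ.p s * σ.p s)) = 0 := by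
  have h1 : ξ ^ b * (σ.p s * σ.p s) ∈ W.gr X (2 * (b + (σ.j s + σ.j s))) :=
    hW.alg_gr hX (hW.mul_alg hX (hW.pow_alg hX hξ b) (hW.mul_alg hX (σ.p_alg s) (σ.p_alg s)))
  refine hW.tr_gr hX h1 ?_
  have := σ.hj s
  simp only [len] at hb
  omega

/-- the component maps -/
noncomputable def F (s : ι) (b : ℕ) : W.coh (Y ⊗ X) →ₗ[K] W.coh Y where
  toFun z := ((-1) ^ (σ.j s) * ((σ.D s)⁻¹ : ℚ) : K) •
    W.push (fst Y X) (z * W.pull (snd Y X) (ξ ^ (σ.len s - b) * σ.p s))
  map_add' x y := by rw [add_mul, map_add, smul_add]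
  map_smul' c x := by rw [smul_mul_assoc, map_smul, smul_comm]; rfl

/-- the inclusion of a string -/
noncomputable def Ψ (s : ι) : (Fin (σ.len s + 1) → W.coh Y) →ₗ[K] W.coh (Y ⊗ X) where
  toFun f := ∑ b, W.pull (fst Y X) (f b) * W.pull (snd Y X) (ξ ^ (b : ℕ) * σ.p s)
  map_add' f g := by
    rw [← Finset.sum_add_distrib]
    refine Finset.sum_congr rfl (fun b _ => ?_)
    rw [Pi.add_apply, map_add, add_mul]
  map_smul' c f := by
    rw [Finset.smul_sum]
    refine Finset.sum_congr rfl (fun b _ => ?_)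
    rw [Pi.smul_apply, map_smul, smul_mul_assoc, RingHom.id_apply]

theorem F_apply (s : ι) (b : ℕ) (z : W.coh (Y ⊗ X)) :
    σ.F s b z = ((-1) ^ (σ.j s) * ((σ.D s)⁻¹ : ℚ) : K) •
    W.push (fst Y X) (z * W.pull (snd Y X) (ξ ^ (σ.len s - b) * σ.p s)) := rfl

theorem Ψ_apply (s : ι) (f : Fin (σ.len s + 1) → W.coh Y) :
    σ.Ψ s f = ∑ b, W.pull (fst Y X) (f b) * W.pull (snd Y X) (ξ ^ (b : ℕ) * σ.p s) := rfl

include hW hY hX in
theorem F_gen (s : ι) (b : ℕ) (y : W.coh Y) (x : W.coh X) :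
    σ.F s b (W.pull (fst Y X) y * W.pull (snd Y X) x)
      = ((-1) ^ (σ.j s) * ((σ.D s)⁻¹ : ℚ) * W.tr X (x * (ξ ^ (σ.len s - b) * σ.p s)) : K) • y := by
  rw [F_apply, mul_assoc, ← map_mul, hW.push_fst hY hX, smul_smul]

include hW hY hX hξ in
/-- components of a string element -/
theorem F_string [DecidableEq ι] (s s' : ι) (b : ℕ) (hb : b ≤ σ.len s) (c : ℕ) (y : W.coh Y) :
    σ.F s b (W.pull (fst Y X) y * W.pull (snd Y X) (ξ ^ c * σ.p s'))
      = if s = s' ∧ b = c then y else 0 := by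
  rw [σ.F_gen hW hY hX]
  have e : ξ ^ c * σ.p s' * (ξ ^ (σ.len s - b) * σ.p s)
      = ξ ^ (c + (σ.len s - b)) * (σ.p s' * σ.p s) := by
    have h1 := hW.alg_comm hX (σ.p_alg s') (ξ ^ (σ.len s - b) * σ.p s)
    rw [mul_assoc, h1, pow_add]
    rw [mul_assoc, mul_assoc, hW.alg_comm hX (σ.p_alg s) (σ.p s')]
  rw [e]
  by_cases hs : s = s'
  · subst hs
    by_cases hbc : b = c
    · subst hbc
      rw [show b + (σ.len s - b) = n - 2 * σ.j s by simp only [len] at *; omega, σ.norm]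
      have h1 : ((σ.D s : ℚ) : K) ≠ 0 := by exact_mod_cast (σ.D_pos s).ne'
      have h2 : ((-1 : K) ^ (σ.j s)) * ((-1 : K) ^ (σ.j s)) = 1 := by
        rw [← mul_pow]; simp
      have h3 : ((-1) ^ (σ.j s) * ((σ.D s)⁻¹ : ℚ) * ((-1) ^ (σ.j s) * (σ.D s : K)) : K) = 1 := by
        push_cast
        field_simp
        linear_combination h2
      rw [h3, one_smul]
      simp
    · rw [σ.norm_other hW hX hξ s _ (by omega), mul_zero, zero_smul]
      simp [hbc]
  · rw [σ.orth s' s (Ne.symm hs), mul_zero, zero_smul]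
    simp [hs]

include hW hY hX hξ in
/-- components of a `T`-element -/
theorem F_T (s : ι) (b : ℕ) {z : W.coh (Y ⊗ X)}
    (hz : z ∈ tens W (⊤ : Submodule K (W.coh Y)) σ.T) : σ.F s b z = 0 := by
  refine Submodule.span_induction (p := fun z _ => σ.F s b z = 0) ?_ ?_ ?_ ?_ hz
  · rintro _ ⟨y, _, t, ht, rfl⟩
    rw [σ.F_gen hW hY hX]
    have h1 := σ.T_orth t ht s (σ.len s - b)
    have e : t * (ξ ^ (σ.len s - b) * σ.p s) = ξ ^ (σ.len s - b) * (t * σ.p s) := by
      rw [← mul_assoc, ← hW.alg_comm hX (hW.pow_alg hX hξ _) t, mul_assoc]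
    rw [e, h1, mul_zero, zero_smul]
  · exact map_zero _
  · intro x y _ _ hx hy
    rw [map_add, hx, hy, add_zero]
  · intro c x _ hx
    rw [map_smul, hx, smul_zero]

include hW hY hX hξ in
/-- components of a string -/
theorem F_Ψ [DecidableEq ι] (s s' : ι) (b : Fin (σ.len s + 1))
    (f : Fin (σ.len s' + 1) → W.coh Y) :
    σ.F s b (σ.Ψ s' f) = if h : s = s' then f ⟨b, by subst h; exact b.isLt⟩ else 0 := by
  rw [Ψ_apply, map_sum]
  by_cases h : s = s'
  · subst h
    rw [Finset.sum_eq_single b]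
    · rw [σ.F_string hW hY hX hξ s s b (by have := b.isLt; omega)]
      simp
    · intro c _ hc
      rw [σ.F_string hW hY hX hξ s s b (by have := b.isLt; omega)]
      rw [if_neg]
      rintro ⟨-, h2⟩
      exact hc (Fin.ext h2.symm)
    · intro hb
      exact absurd (Finset.mem_univ b) hb
  · rw [dif_neg h]
    refine Finset.sum_eq_zero (fun c _ => ?_)
    rw [σ.F_string hW hY hX hξ s s' b (by have := b.isLt; omega), if_neg]
    exact fun h2 => h h2.1

/-- the `T`-part -/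
noncomputable def PT : W.coh (Y ⊗ X) →ₗ[K] W.coh (Y ⊗ X) :=
  LinearMap.id - ∑ s, (σ.Ψ s) ∘ₗ LinearMap.pi (fun b : Fin (σ.len s + 1) => σ.F s b)

theorem PT_apply (z : W.coh (Y ⊗ X)) :
    σ.PT z = z - ∑ s, σ.Ψ s (fun b => σ.F s b z) := by
  simp only [PT, LinearMap.sub_apply, LinearMap.id_apply, LinearMap.sum_apply,
    LinearMap.comp_apply]
  rfl

theorem eq_sum (z : W.coh (Y ⊗ X)) :
    z = ∑ s, σ.Ψ s (fun b => σ.F s b z) + σ.PT z := by
  rw [PT_apply]; abel

include hW hY hX hξ in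
theorem PT_T {z : W.coh (Y ⊗ X)} (hz : z ∈ tens W (⊤ : Submodule K (W.coh Y)) σ.T) :
    σ.PT z = z := by
  rw [PT_apply]
  have : ∑ s, σ.Ψ s (fun b => σ.F s b z) = 0 := by
    refine Finset.sum_eq_zero (fun s _ => ?_)
    have h1 : (fun b : Fin (σ.len s + 1) => σ.F s b z) = 0 := by
      funext b
      exact σ.F_T hW hY hX hξ s b hz
    rw [h1, map_zero]
  rw [this, sub_zero]

include hW hY hX hξ in
theorem PT_string (s : ι) (c : ℕ) (y : W.coh Y) :
    σ.PT (W.pull (fst Y X) y * W.pull (snd Y X) (ξ ^ c * σ.p s)) = 0 := by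
  classical
  rw [PT_apply, sub_eq_zero]
  by_cases hc : c ≤ σ.len s
  · rw [Finset.sum_eq_single s]
    · have h1 : (fun b : Fin (σ.len s + 1) => σ.F s b
          (W.pull (fst Y X) y * W.pull (snd Y X) (ξ ^ c * σ.p s)))
          = Pi.single ⟨c, by omega⟩ y := by
        funext b
        rw [σ.F_string hW hY hX hξ s s b (by have := b.isLt; omega)]
        by_cases hb : (b : ℕ) = c
        · have : b = ⟨c, by omega⟩ := Fin.ext hb
          rw [this]; simp
        · rw [if_neg (fun h => hb h.2), Pi.single_eq_of_ne]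
          intro h; apply hb; rw [h]
      rw [h1, Ψ_apply, Finset.sum_eq_single ⟨c, by omega⟩]
      · simp
      · intro b _ hb
        rw [Pi.single_eq_of_ne hb, map_zero, zero_mul]
      · intro h; exact absurd (Finset.mem_univ _) h
    · intro s' _ hs'
      have h1 : (fun b : Fin (σ.len s' + 1) => σ.F s' b
          (W.pull (fst Y X) y * W.pull (snd Y X) (ξ ^ c * σ.p s))) = 0 := by
        funext b
        rw [σ.F_string hW hY hX hξ s' s b (by have := b.isLt; omega)]
        exact if_neg (fun h => hs' h.1)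
      rw [h1, map_zero]
    · intro h; exact absurd (Finset.mem_univ _) h
  · rw [σ.high_zero s c (by omega)]
    simp only [map_zero, mul_zero]
    symm
    refine Finset.sum_eq_zero (fun s' _ => ?_)
    exact map_zero (σ.Ψ s')

include hW hY hX hξ in
/-- The `T`-part and the components of an element of `S ⊗ H(X)`. -/
theorem PT_mem (S : Submodule K (W.coh Y)) {z : W.coh (Y ⊗ X)}
    (hz : z ∈ tens W S (⊤ : Submodule K (W.coh X))) :
    σ.PT z ∈ tens W S σ.T ∧ ∀ s b, σ.F s b z ∈ S := by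
  have key : ∀ y ∈ S, ∀ x : W.coh X,
      σ.PT (W.pull (fst Y X) y * W.pull (snd Y X) x) ∈ tens W S σ.T := by
    intro y hy x
    have hx : x ∈ (Submodule.span K {x | ∃ s b, x = ξ ^ b * σ.p s}) ⊔ σ.T := by
      rw [σ.decomp]; trivial
    obtain ⟨x1, hx1, t, ht, rfl⟩ := Submodule.mem_sup.mp hx
    rw [map_add, mul_add, map_add]
    refine add_mem ?_ ?_
    · have h0 : σ.PT (W.pull (fst Y X) y * W.pull (snd Y X) x1) = 0 := by
        refine Submodule.span_induction
          (p := fun x1 _ => σ.PT (W.pull (fst Y X) y * W.pull (snd Y X) x1) = 0) ?_ ?_ ?_ ?_ hx1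
        · rintro _ ⟨s, b, rfl⟩
          exact σ.PT_string hW hY hX hξ s b y
        · simp
        · intro a b _ _ ha hb
          rw [map_add, mul_add, map_add, ha, hb, add_zero]
        · intro c a _ ha
          rw [map_smul, mul_smul_comm, map_smul, ha, smul_zero]
      rw [h0]; exact zero_mem _
    · rw [σ.PT_T hW hY hX hξ (mem_tens trivial ht)]
      exact mem_tens hy ht
  constructor
  · refine Submodule.span_induction (p := fun z _ => σ.PT z ∈ tens W S σ.T) ?_ ?_ ?_ ?_ hz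
    · rintro _ ⟨y, hy, x, _, rfl⟩
      exact key y hy x
    · rw [map_zero]; exact zero_mem _
    · intro a b _ _ ha hb
      rw [map_add]; exact add_mem ha hb
    · intro c a _ ha
      rw [map_smul]; exact Submodule.smul_mem _ _ ha
  · intro s b
    refine Submodule.span_induction (p := fun z _ => σ.F s b z ∈ S) ?_ ?_ ?_ ?_ hz
    · rintro _ ⟨y, hy, x, _, rfl⟩
      rw [σ.F_gen hW hY hX]
      exact Submodule.smul_mem _ _ hy
    · rw [map_zero]; exact zero_mem _
    · intro a b _ _ ha hb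
      rw [map_add]; exact add_mem ha hb
    · intro c a _ ha
      rw [map_smul]; exact Submodule.smul_mem _ _ ha

end StringsG

end Pool.Agent.Lib.MP_361a6f_ag.IP2
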