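import Pool.Agent.Lib.MP_361a6f_ag.H3.Defs

/-!
# The definitions used in the statement on products with independent Frobenius morphisms
-/

open CategoryTheory AlgebraicGeometry MonoidalCategory CartesianMonoidalCategory

universe u v w

namespace Pool.Agent.Lib.MP_361a6f_ag.IP2

open Pool.Agent.Lib.MP_361a6f_ag.H3

variable {k : Type u} [Field k] {K : Type v} [Field K]

/-- The product `X_0 × ⋯ × X_m`. -/
noncomputable def prodSeq (X : ℕ → Sch k) : ℕ → Sch k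
  | 0 => X 0
  | m + 1 => (prodSeq X m).prod (X (m + 1))

/-- The class `Σ pr_i^* ξ_i` on `X_0 × ⋯ × X_m`. -/
noncomputable def polSeq (W : CohomologyData.{u, v, w} k K) {X : ℕ → Sch k}
    (ξ : ∀ i, W.coh (X i)) : (m : ℕ) → W.coh (prodSeq X m)
  | 0 => ξ 0
  | m + 1 => W.pb ((prodSeq X m).pr₁ (X (m + 1))) (polSeq W ξ m)
      + W.pb ((prodSeq X m).pr₂ (X (m + 1))) (ξ (m + 1))

/-- The morphism `F_0 × ⋯ × F_m`. -/
noncomputable def homSeq {X : ℕ → Sch k} (F : ∀ i, Sch.Mor (X i) (X i)) :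
    (m : ℕ) → Sch.Mor (prodSeq X m) (prodSeq X m)
  | 0 => F 0
  | m + 1 => homSeq F m ⊗ₘ F (m + 1)

/-- `F_0 × ⋯ × F_m` acts on algebraic classes like a Frobenius morphism over a field with `q`
elements: for every algebraic class `x` of codimension `j` some iterate multiplies `x` by
`q^(j s)`, `s ≥ 1` its order. -/
def FrobeniusSeq (W : CohomologyData.{u, v, w} k K) {X : ℕ → Sch k}
    (F : ∀ i, Sch.Mor (X i) (X i)) (q m : ℕ) : Prop :=
  ∀ j x, W.IsAlg (prodSeq X m) j x →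
    ∃ s : ℕ, 1 ≤ s ∧ (fun y => W.pb (homSeq F m) y)^[s] x = W.scal ((q : K) ^ (j * s)) x

/-- `t` is orthogonal to the classes `ξ^b x`, `x` a primitive algebraic class. -/
def Transcendental (W : CohomologyData.{u, v, w} k K) (X : Sch k) (n : ℕ) (ξ : W.coh X)
    (t : W.coh X) : Prop :=
  ∀ j, 2 * j ≤ n → ∀ x, W.IsAlg X j x → W.cup (ξ ^ (n - 2 * j + 1)) x = 0 →
    ∀ b, W.Tr (W.cup t (W.cup (ξ ^ b) x)) = 0

/-- `P(F^*) t = 0`. -/
def Kills (W : CohomologyData.{u, v, w} k K) {X : Sch k} (F : Sch.Mor X X) (P : Polynomial ℚ)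
    (t : W.coh X) : Prop :=
  P.sum (fun i a => W.scal (a : K) ((fun y => W.pb F y)^[i] t)) = 0

/-- No number `(α_0 ⋯ α_k β)^s`, `k < m`, `s ≥ 1`, with complex roots `α_i` of `Ψ_i` and a complex
root `β` of `Φ_(k+1)`, is of the form `q^(c s)`. -/
def Independent (Ψ Φ : ℕ → Polynomial ℚ) (q m : ℕ) : Prop :=
  ∀ l < m, ∀ α : ℕ → ℂ, (∀ i ≤ l, (Ψ i).aeval (α i) = 0) → ∀ β : ℂ, (Φ (l + 1)).aeval β = 0 →
    ∀ s : ℕ, 1 ≤ s → ∀ c : ℕ, ((∏ i ∈ Finset.range (l + 1), α i) * β) ^ s ≠ (q : ℂ) ^ (c * s)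

end Pool.Agent.Lib.MP_361a6f_ag.IP2
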