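import Pool.Agent.Lib.MP_361a6f_ag.H3.Lef
import Pool.Agent.Lib.MP_361a6f_ag.IP2.Dec
import Pool.Agent.Lib.MP_361a6f_ag.IP2.Defs

/-!
# The strings of the primitive algebraic classes and their orthogonal complement
-/

open CategoryTheory AlgebraicGeometry MonoidalCategory CartesianMonoidalCategory Opposite

universe u v w

set_option linter.unusedSectionVars false

namespace Pool.Agent.Lib.MP_361a6f_ag.IP2

open Pool.Agent.Lib.MP_361a6f_ag.H3

variable {k : Type u} [Field k] {K : Type v} [Field K]

/-- The orthogonal complement of the strings of the primitive algebraic classes. -/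
def orthPrim (W : CohomologyData.{u, v, w} k K) (X : Sch k) (n : ℕ) (ξ : W.coh X) :
    Submodule K (W.coh X) where
  carrier := {t | Transcendental W X n ξ t}
  add_mem' := by
    intro x y hx hy j hj a ha ha' b
    have h1 := hx j hj a ha ha' b
    have h2 := hy j hj a ha ha' b
    change W.tr X ((x + y) * (ξ ^ b * a)) = 0
    rw [add_mul, map_add]
    change W.tr X (x * (ξ ^ b * a)) = 0 at h1
    change W.tr X (y * (ξ ^ b * a)) = 0 at h2
    rw [h1, h2, add_zero]
  zero_mem' := by
    intro j _ a _ _ b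
    change W.tr X (0 * (ξ ^ b * a)) = 0
    rw [zero_mul, map_zero]
  smul_mem' := by
    intro c x hx j hj a ha ha' b
    have h1 := hx j hj a ha ha' b
    change W.tr X ((c • x) * (ξ ^ b * a)) = 0
    change W.tr X (x * (ξ ^ b * a)) = 0 at h1
    rw [smul_mul_assoc, map_smul, h1, smul_zero]

theorem exists_stringsG [CharZero K] {W : CohomologyData.{u, v, w} k K} {𝒱 : VarietyClass k}
    (hW : IsWeilCohomology W 𝒱) {X : Sch k} {n : ℕ} (hX : 𝒱.mem X n) {ξ : W.coh X}
    (hξ : ξ ∈ W.alg X 1) (hHT : HodgeType W X n ξ) :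
    ∃ (ι : Type) (_ : Fintype ι) (σ : StringsG W X n ξ ι), σ.T = orthPrim W X n ξ := by
  classical
  obtain ⟨ι, hι, ⟨F⟩⟩ := exists_primFam hW hX hξ hHT
  -- orthogonality of an element to all string elements of the family suffices
  have hmem : ∀ t : W.coh X, (∀ s b, b ≤ n - 2 * F.j s → W.tr X (t * (ξ ^ b * F.p s)) = 0) →
      t ∈ orthPrim W X n ξ := by
    intro t ht j hj x hx hx' b
    have h1 := F.span j hj x ⟨hx, hx'⟩
    change W.tr X (t * (ξ ^ b * x)) = 0
    refine Submodule.span_induction (p := fun x _ => W.tr X (t * (ξ ^ b * x)) = 0)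
      ?_ ?_ ?_ ?_ h1
    · rintro _ ⟨s, _, rfl⟩
      by_cases hb : b ≤ n - 2 * F.j s
      · exact ht s b hb
      · obtain ⟨c, hc⟩ : ∃ c, b = c + (n - 2 * F.j s + 1) :=
          ⟨b - (n - 2 * F.j s + 1), by omega⟩
        rw [hc, pow_add, mul_assoc, F.prim, mul_zero, mul_zero, map_zero]
    · rw [mul_zero, mul_zero, map_zero]
    · intro x y _ _ hx hy
      rw [mul_add, mul_add, map_add, hx, hy, add_zero]
    · intro c x _ hx
      rw [mul_smul_comm, mul_smul_comm, map_smul, hx, smul_zero]
  refine ⟨ι, hι,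
    { j := F.j
      p := F.p
      D := F.D
      T := orthPrim W X n ξ
      hj := F.hj
      p_alg := F.p_alg
      D_pos := F.D_pos
      norm := F.norm
      prim := F.prim
      orth := F.orth
      T_st := ?_
      T_orth := ?_
      decomp := ?_ }, rfl⟩
  · intro t ht j hj x hx hx' b
    have h1 := ht j hj x hx hx' (b + 1)
    change W.tr X (ξ * t * (ξ ^ b * x)) = 0
    change W.tr X (t * (ξ ^ (b + 1) * x)) = 0 at h1
    rw [hW.alg_comm hX hξ t, mul_assoc, ← mul_assoc ξ, ← pow_succ']
    exact h1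
  · intro t ht s b
    have h1 := ht (F.j s) (F.hj s) (F.p s) (F.p_alg s) (F.prim s) b
    change W.tr X (t * (ξ ^ b * F.p s)) = 0 at h1
    rw [← mul_assoc, hW.alg_comm hX (hW.pow_alg hX hξ b) t, mul_assoc]
    exact h1
  · rw [eq_top_iff]
    intro x _
    -- the projection
    set y : W.coh X := ∑ s, ∑ b ∈ Finset.range (n - 2 * F.j s + 1),
      ((-1) ^ (F.j s) * ((F.D s)⁻¹ : ℚ) * W.tr X (x * (ξ ^ (n - 2 * F.j s - b) * F.p s)) : K)
        • (ξ ^ b * F.p s) with hy
    have e : x = y + (x - y) := by abel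
    rw [e]
    refine Submodule.add_mem_sup ?_ ?_
    · refine sum_mem (fun s _ => sum_mem (fun b _ => ?_))
      exact Submodule.smul_mem _ _ (Submodule.subset_span ⟨s, b, rfl⟩)
    · refine hmem _ (fun s' b' hb' => ?_)
      rw [sub_mul, map_sub, sub_eq_zero, hy, Finset.sum_mul, map_sum, Finset.sum_eq_single s']
      · rw [Finset.sum_mul, map_sum, Finset.sum_eq_single (n - 2 * F.j s' - b')]
        · rw [smul_mul_assoc, map_smul, F.tr_string hW hX hξ s' s' _ _
            (by have := F.hj s'; omega), if_pos rfl, smul_eq_mul,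
            show n - 2 * F.j s' - (n - 2 * F.j s' - b') = b' by omega]
          have h1 : ((F.D s' : ℚ) : K) ≠ 0 := by exact_mod_cast (F.D_pos s').ne'
          have h2 : ((-1 : K) ^ (F.j s')) * ((-1 : K) ^ (F.j s')) = 1 := by
            rw [← mul_pow]; simp
          push_cast
          field_simp
          linear_combination (-(W.tr X (x * (ξ ^ b' * F.p s')))) * h2
        · intro b hb hne
          have hb2 := Finset.mem_range.mp hb
          rw [smul_mul_assoc, map_smul]
          have h3 : ξ ^ b * F.p s' * (ξ ^ b' * F.p s')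
              ∈ W.gr X (2 * ((b + F.j s') + (b' + F.j s'))) :=
            hW.alg_gr hX (hW.mul_alg hX (hW.mul_alg hX (hW.pow_alg hX hξ b) (F.p_alg s'))
              (hW.mul_alg hX (hW.pow_alg hX hξ b') (F.p_alg s')))
          rw [hW.tr_gr hX h3 (by have := F.hj s'; omega), smul_zero]
        · intro h
          exact absurd (Finset.mem_range.mpr (by omega)) h
      · intro s _ hs
        rw [Finset.sum_mul, map_sum]
        refine Finset.sum_eq_zero (fun b _ => ?_)
        rw [smul_mul_assoc, map_smul]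
        have e2 : ξ ^ b * F.p s * (ξ ^ b' * F.p s') = ξ ^ (b + b') * (F.p s * F.p s') := by
          rw [mul_assoc, ← mul_assoc (F.p s), ← hW.alg_comm hX (hW.pow_alg hX hξ b') (F.p s),
            mul_assoc (ξ ^ b'), ← mul_assoc (ξ ^ b), ← pow_add]
        rw [e2, F.orth s s' hs, smul_zero]
      · intro h
        exact absurd (Finset.mem_univ _) h

end Pool.Agent.Lib.MP_361a6f_ag.IP2
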