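import Pool.Agent.Lib.MP_361a6f_ag.IP2.Dec2
import Pool.Agent.Lib.MP_361a6f_ag.IP2.StrG
import Pool.Agent.Lib.MP_361a6f_ag.IP2.Joint

/-!
# The product with one more factor
-/

open CategoryTheory AlgebraicGeometry MonoidalCategory CartesianMonoidalCategory Opposite

universe u v w

set_option linter.unusedSectionVars false

namespace Pool.Agent.Lib.MP_361a6f_ag.IP2

open Pool.Agent.Lib.MP_361a6f_ag.H3

section Alg

variable {K V : Type*} [Field K] [CharZero K] [AddCommGroup V] [Module K V]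

/-- `P(f) v` for a rational polynomial `P` -/
noncomputable def pev (f : Module.End K V) (P : Polynomial ℚ) (v : V) : V :=
  P.sum (fun i a => (a : K) • (f ^ i) v)

theorem restrict_pow [Module ℚ V] [IsScalarTower ℚ K V] (f : Module.End K V) (i : ℕ) (w : V) :
    ((f.restrictScalars ℚ : Module.End ℚ V) ^ i) w = (f ^ i) w := by
  induction i generalizing w with
  | zero => rfl
  | succ i ih =>
    rw [pow_succ, pow_succ, Module.End.mul_apply, Module.End.mul_apply, ih]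
    rfl

theorem pev_eq [Module ℚ V] [IsScalarTower ℚ K V] (f : Module.End K V) (P : Polynomial ℚ)
    (v : V) : Polynomial.aeval (f.restrictScalars ℚ : Module.End ℚ V) P v = pev f P v := by
  rw [pev, Polynomial.aeval_def, Polynomial.eval₂_eq_sum, Polynomial.sum, Polynomial.sum,
    LinearMap.sum_apply]
  refine Finset.sum_congr rfl (fun i _ => ?_)
  rw [Module.End.mul_apply, restrict_pow, Module.algebraMap_end_apply]
  rw [← algebraMap_smul K (P.coeff i) ((f ^ i) v)]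
  rfl

theorem tower_ratK (K V : Type*) [Field K] [CharZero K] [AddCommGroup V] [Module K V] :
    letI : Module ℚ V := Module.compHom V (algebraMap ℚ K)
    IsScalarTower ℚ K V := by
  let _ : Module ℚ V := Module.compHom V (algebraMap ℚ K)
  exact ⟨fun q a x => by
    change (q • a) • x = (algebraMap ℚ K q) • (a • x)
    rw [Algebra.smul_def, mul_smul]⟩

theorem pev_frob (f : Module.End K V) (s : ℕ) (c : ℚ) (v : V) :
    pev f (Polynomial.X ^ s - Polynomial.C c) v = (f ^ s) v - (c : K) • v := by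
  let _ : Module ℚ V := Module.compHom V (algebraMap ℚ K)
  have _ : IsScalarTower ℚ K V := tower_ratK K V
  rw [← pev_eq, map_sub, map_pow, Polynomial.aeval_X, Polynomial.aeval_C,
    LinearMap.sub_apply, Module.algebraMap_end_apply, restrict_pow]
  rfl

theorem joint2K (f g : Module.End K V) (hc : Commute f g) (A B P : Polynomial ℚ) (v : V)
    (hv : v ≠ 0) (hA : pev f A v = 0) (hB : pev g B v = 0) (hP : pev (f * g) P v = 0) :
    ∃ α β : ℂ, Polynomial.aeval α A = 0 ∧ Polynomial.aeval β B = 0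
      ∧ Polynomial.aeval (α * β) P = 0 := by
  let _ : Module ℚ V := Module.compHom V (algebraMap ℚ K)
  have _ : IsScalarTower ℚ K V := tower_ratK K V
  have e : (f * g).restrictScalars ℚ
      = (f.restrictScalars ℚ : Module.End ℚ V) * (g.restrictScalars ℚ : Module.End ℚ V) := rfl
  refine joint2 (f.restrictScalars ℚ : Module.End ℚ V) (g.restrictScalars ℚ : Module.End ℚ V)
    ?_ A B P v hv ?_ ?_ ?_
  · have h1 := congrArg (fun h : Module.End K V => (h.restrictScalars ℚ : Module.End ℚ V)) hc.eq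
    exact h1
  · rw [pev_eq]; exact hA
  · rw [pev_eq]; exact hB
  · rw [← e, pev_eq]; exact hP

theorem joint_polyK (f g : Module.End K V) (hc : Commute f g) (A B : Polynomial ℚ)
    (hA0 : A ≠ 0) (hB0 : B ≠ 0) (hA : ∀ v, pev f A v = 0) (hB : ∀ v, pev g B v = 0) :
    ∃ C : Polynomial ℚ, C ≠ 0 ∧ (∀ v, pev (f * g) C v = 0) ∧
      ∀ γ : ℂ, Polynomial.aeval γ C = 0 → ∃ α β : ℂ, Polynomial.aeval α A = 0
        ∧ Polynomial.aeval β B = 0 ∧ γ = α * β := by
  let _ : Module ℚ V := Module.compHom V (algebraMap ℚ K)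
  have _ : IsScalarTower ℚ K V := tower_ratK K V
  have e : (f * g).restrictScalars ℚ
      = (f.restrictScalars ℚ : Module.End ℚ V) * (g.restrictScalars ℚ : Module.End ℚ V) := rfl
  obtain ⟨C, h1, h2, h3⟩ := joint_poly (f.restrictScalars ℚ : Module.End ℚ V)
    (g.restrictScalars ℚ : Module.End ℚ V)
    (congrArg (fun h : Module.End K V => (h.restrictScalars ℚ : Module.End ℚ V)) hc.eq) A B
    hA0 hB0 (LinearMap.ext fun v => by rw [pev_eq]; exact hA v)
    (LinearMap.ext fun v => by rw [pev_eq]; exact hB v)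
  refine ⟨C, h1, fun v => ?_, h3⟩
  rw [← pev_eq, e, h2]
  rfl

theorem pev_zero (f : Module.End K V) (P : Polynomial ℚ) : pev f P 0 = 0 := by
  rw [pev, Polynomial.sum]
  exact Finset.sum_eq_zero (fun i _ => by rw [map_zero, smul_zero])

theorem pev_add (f : Module.End K V) (P : Polynomial ℚ) (x y : V) :
    pev f P (x + y) = pev f P x + pev f P y := by
  rw [pev, pev, pev, Polynomial.sum, Polynomial.sum, Polynomial.sum, ← Finset.sum_add_distrib]
  exact Finset.sum_congr rfl (fun i _ => by rw [map_add, smul_add])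

theorem pev_smul (f : Module.End K V) (P : Polynomial ℚ) (c : K) (x : V) :
    pev f P (c • x) = c • pev f P x := by
  rw [pev, pev, Polynomial.sum, Polynomial.sum, Finset.smul_sum]
  exact Finset.sum_congr rfl (fun i _ => by rw [map_smul, smul_comm])

end Alg

variable {k : Type u} [Field k] {K : Type v} [Field K] [CharZero K]
  {W : CohomologyData.{u, v, w} k K} {𝒱 : VarietyClass k}

/-- the operator `F^*` -/
noncomputable def opn (W : CohomologyData.{u, v, w} k K) {X : Sch k} (F : X ⟶ X) :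
    Module.End K (W.coh X) := (W.pull F).toLinearMap

theorem opn_pow {X : Sch k} (F : X ⟶ X) (i : ℕ) (x : W.coh X) :
    (opn W F ^ i) x = (fun y => W.pb F y)^[i] x := by
  rw [Module.End.pow_apply]
  rfl

theorem kills_iff {X : Sch k} (F : X ⟶ X) (P : Polynomial ℚ) (t : W.coh X) :
    Kills W F P t ↔ pev (opn W F) P t = 0 := by
  rw [Kills, pev]
  simp only [opn_pow]

theorem opn_mul {X : Sch k} (F G : X ⟶ X) : opn W F * opn W G = opn W (F ≫ G) := by
  refine LinearMap.ext (fun x => ?_)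
  exact (W.pull_comp F G x).symm

/-- the spectrum of `F^*` lies in `S` -/
def SpecIn (W : CohomologyData.{u, v, w} k K) {X : Sch k} (F : X ⟶ X) (S : Set ℂ) : Prop :=
  ∃ C : Polynomial ℚ, C ≠ 0 ∧ (∀ t, pev (opn W F) C t = 0)
    ∧ ∀ γ : ℂ, Polynomial.aeval γ C = 0 → γ ∈ S

section

variable (hW : IsWeilCohomology W 𝒱) {Y X : Sch k} {d n : ℕ}
  (hY : 𝒱.mem Y d) (hX : 𝒱.mem X n)

theorem opn_left (F : Y ⟶ Y) (i : ℕ) (y : W.coh Y) (x : W.coh X) :
    (opn W (F ⊗ₘ 𝟙 X) ^ i) (W.pull (fst Y X) y * W.pull (snd Y X) x)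
      = W.pull (fst Y X) ((opn W F ^ i) y) * W.pull (snd Y X) x := by
  induction i with
  | zero => rfl
  | succ i ih =>
    rw [pow_succ', Module.End.mul_apply, ih, pow_succ', Module.End.mul_apply]
    change W.pull (F ⊗ₘ 𝟙 X) _ = W.pull (fst Y X) (W.pull F _) * _
    rw [map_mul, ← W.pull_comp, ← W.pull_comp, ← W.pull_comp]
    congr 3
    · simp
    · simp

theorem opn_right (G : X ⟶ X) (i : ℕ) (y : W.coh Y) (x : W.coh X) :
    (opn W (𝟙 Y ⊗ₘ G) ^ i) (W.pull (fst Y X) y * W.pull (snd Y X) x)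
      = W.pull (fst Y X) y * W.pull (snd Y X) ((opn W G ^ i) x) := by
  induction i with
  | zero => rfl
  | succ i ih =>
    rw [pow_succ', Module.End.mul_apply, ih, pow_succ', Module.End.mul_apply]
    change W.pull (𝟙 Y ⊗ₘ G) _ = _ * W.pull (snd Y X) (W.pull G _)
    rw [map_mul, ← W.pull_comp, ← W.pull_comp, ← W.pull_comp]
    congr 3
    · simp
    · simp

theorem pev_left (F : Y ⟶ Y) (P : Polynomial ℚ) (y : W.coh Y) (x : W.coh X) :
    pev (opn W (F ⊗ₘ 𝟙 X)) P (W.pull (fst Y X) y * W.pull (snd Y X) x)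
      = W.pull (fst Y X) (pev (opn W F) P y) * W.pull (snd Y X) x := by
  rw [pev, pev, Polynomial.sum, Polynomial.sum, map_sum, Finset.sum_mul]
  exact Finset.sum_congr rfl (fun i _ => by rw [opn_left, map_smul, smul_mul_assoc])

theorem pev_right (G : X ⟶ X) (P : Polynomial ℚ) (y : W.coh Y) (x : W.coh X) :
    pev (opn W (𝟙 Y ⊗ₘ G)) P (W.pull (fst Y X) y * W.pull (snd Y X) x)
      = W.pull (fst Y X) y * W.pull (snd Y X) (pev (opn W G) P x) := by
  rw [pev, pev, Polynomial.sum, Polynomial.sum, map_sum, Finset.mul_sum]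
  exact Finset.sum_congr rfl (fun i _ => by rw [opn_right, map_smul, mul_smul_comm])

theorem opn_lr (F : Y ⟶ Y) (G : X ⟶ X) :
    opn W (F ⊗ₘ 𝟙 X) * opn W (𝟙 Y ⊗ₘ G) = opn W (F ⊗ₘ G) := by
  rw [opn_mul, tensor_id_comp_id_tensor]

theorem opn_rl (F : Y ⟶ Y) (G : X ⟶ X) :
    opn W (𝟙 Y ⊗ₘ G) * opn W (F ⊗ₘ 𝟙 X) = opn W (F ⊗ₘ G) := by
  rw [opn_mul, id_tensor_comp_tensor_id]

theorem pev_left_tens {S : Submodule K (W.coh Y)} {T : Submodule K (W.coh X)} (F : Y ⟶ Y)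
    (P : Polynomial ℚ) (h : ∀ y ∈ S, pev (opn W F) P y = 0) {z : W.coh (Y ⊗ X)}
    (hz : z ∈ tens W S T) : pev (opn W (F ⊗ₘ 𝟙 X)) P z = 0 := by
  refine Submodule.span_induction (p := fun z _ => pev (opn W (F ⊗ₘ 𝟙 X)) P z = 0)
    ?_ ?_ ?_ ?_ hz
  · rintro _ ⟨y, hy, t, _, rfl⟩
    rw [pev_left, h y hy, map_zero, zero_mul]
  · exact pev_zero _ _
  · intro a b _ _ ha hb
    rw [pev_add, ha, hb, add_zero]
  · intro c a _ ha
    rw [pev_smul, ha, smul_zero]

theorem pev_right_tens {S : Submodule K (W.coh Y)} {T : Submodule K (W.coh X)} (G : X ⟶ X)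
    (P : Polynomial ℚ) (h : ∀ t ∈ T, pev (opn W G) P t = 0) {z : W.coh (Y ⊗ X)}
    (hz : z ∈ tens W S T) : pev (opn W (𝟙 Y ⊗ₘ G)) P z = 0 := by
  refine Submodule.span_induction (p := fun z _ => pev (opn W (𝟙 Y ⊗ₘ G)) P z = 0)
    ?_ ?_ ?_ ?_ hz
  · rintro _ ⟨y, _, t, ht, rfl⟩
    rw [pev_right, h t ht, map_zero, mul_zero]
  · exact pev_zero _ _
  · intro a b _ _ ha hb
    rw [pev_add, ha, hb, add_zero]
  · intro c a _ ha
    rw [pev_smul, ha, smul_zero]

include hW hY hX in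
theorem spec_prod {F : Y ⟶ Y} {G : X ⟶ X} {S S' : Set ℂ} (h : SpecIn W F S)
    (h' : SpecIn W G S') :
    SpecIn W (F ⊗ₘ G) {γ | ∃ α ∈ S, ∃ β ∈ S', γ = α * β} := by
  obtain ⟨A, a1, a2, a3⟩ := h
  obtain ⟨B, b1, b2, b3⟩ := h'
  have htop : ∀ z : W.coh (Y ⊗ X), z ∈ tens W (⊤ : Submodule K (W.coh Y))
      (⊤ : Submodule K (W.coh X)) := fun z => by rw [tens_top hW hY hX]; trivial
  obtain ⟨C, c1, c2, c3⟩ := joint_polyK (opn W (F ⊗ₘ 𝟙 X)) (opn W (𝟙 Y ⊗ₘ G))
    (by rw [commute_iff_eq, opn_lr, opn_rl]) A B a1 b1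
    (fun z => pev_left_tens F A (fun y _ => a2 y) (htop z))
    (fun z => pev_right_tens G B (fun y _ => b2 y) (htop z))
  refine ⟨C, c1, fun z => ?_, fun γ hγ => ?_⟩
  · rw [← opn_lr]; exact c2 z
  · obtain ⟨α, β, h1, h2, h3⟩ := c3 γ hγ
    exact ⟨α, a3 α h1, β, b3 β h2, h3⟩

/-- no algebraic classes in `H(Y) ⊗ T(X)` -/
theorem vanish {F : Y ⟶ Y} {G : X ⟶ X} {S : Set ℂ} (h : SpecIn W F S)
    {T : Submodule K (W.coh X)} {Φ : Polynomial ℚ} (hΦ : ∀ t ∈ T, pev (opn W G) Φ t = 0) {q : ℕ}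
    (hind : ∀ α ∈ S, ∀ β : ℂ, Polynomial.aeval β Φ = 0 → ∀ s : ℕ, 1 ≤ s → ∀ c : ℕ,
      (α * β) ^ s ≠ (q : ℂ) ^ (c * s))
    (hF : ∀ j z, z ∈ W.alg (Y ⊗ X) j →
      ∃ s : ℕ, 1 ≤ s ∧ (opn W (F ⊗ₘ G) ^ s) z = ((q : K) ^ (j * s)) • z) :
    ∀ j, ∀ z ∈ W.alg (Y ⊗ X) j, z ∈ tens W (⊤ : Submodule K (W.coh Y)) T → z = 0 := by
  intro j z hz hzT
  by_contra hne
  obtain ⟨A, a1, a2, a3⟩ := h
  obtain ⟨s, hs, hs'⟩ := hF j z hz
  obtain ⟨α, β, h1, h2, h3⟩ := joint2K (opn W (F ⊗ₘ 𝟙 X)) (opn W (𝟙 Y ⊗ₘ G))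
    (by rw [commute_iff_eq, opn_lr, opn_rl]) A Φ
    (Polynomial.X ^ s - Polynomial.C ((q : ℚ) ^ (j * s))) z hne
    (pev_left_tens F A (fun y _ => a2 y) hzT) (pev_right_tens G Φ hΦ hzT) (by
      rw [opn_lr, pev_frob, hs']
      push_cast
      exact sub_self _)
  refine hind α (a3 α h1) β h2 s hs j ?_
  rw [map_sub, map_pow, Polynomial.aeval_X, Polynomial.aeval_C, sub_eq_zero] at h3
  rw [h3]
  simp

include hW hY hX in
/-- the product with one more factor -/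
theorem ht_prod {l : W.coh Y} (hl : l ∈ W.alg Y 1) {ξ : W.coh X} (hξ : ξ ∈ W.alg X 1)
    (hHY : HodgeType W Y d l) (hHX : HodgeType W X n ξ)
    (hz : ∀ j, ∀ z ∈ W.alg (Y ⊗ X) j,
      z ∈ tens W (⊤ : Submodule K (W.coh Y)) (orthPrim W X n ξ) → z = 0) :
    HodgeType W (Y ⊗ X) (d + n) (lam W l ξ) := by
  obtain ⟨ι, hι, σ, hσ⟩ := exists_stringsG hW hX hξ hHX
  have hS : ∀ x ∈ (⊤ : Submodule K (W.coh Y)), l * x ∈ (⊤ : Submodule K (W.coh Y)) :=
    fun _ _ => trivial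
  have h1 : (LD hW hY hl ⊤ hS).HR d := (LD_HR_iff hW hY hl _ hS).mpr (HTS_top.mpr hHY)
  have h2 : (LD hW (𝒱.prod hY hX) (lam_alg hW hY hX hl hξ)
      (tens W (⊤ : Submodule K (W.coh Y)) σ.T)
      (tens_stable hW hY hX hl hξ hS σ.T_stable)).HR (d + n) := by
    intro j hj x hx _ hne
    exfalso
    apply hne
    obtain ⟨hx1, hx2⟩ := hx
    rw [hσ] at hx2
    exact hz j x hx1 hx2
  have h3 := σ.hr_prod hW hY hX hl hξ hS h1 h2
  rw [LD_HR_iff] at h3
  rw [← HTS_top]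
  intro j hj x hx _ e1 e2
  exact h3 j hj x hx (by rw [tens_top hW hY hX]; trivial) e1 e2

end

end Pool.Agent.Lib.MP_361a6f_ag.IP2
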